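import Mathlib
import Pool.Agent.Helper51.LT.St
import Pool.Agent.Helper71.TU.X5aux
import Pool.Agent.Helper60.Rel.GFun
import Pool.Agent.Helper46.Rel.Koebe

/-!
# LT module INV: Koebe's theorem for the inverse function
-/

set_option autoImplicit false

namespace Pool.Agent.Helper9.LT

open Complex MeasureTheory Set Metric Filter Topology
open scoped Real ENNReal
open Pool.Agent.Helper51.LT

theorem inv_open {f : ℂ → ℂ} {U : Set ℂ} (hU : IsOpen U)
    (hf : DifferentiableOn ℂ f U) (hi : InjOn f U) {z : ℂ} (hz : z ∈ U) :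
    𝓝 (f z) ≤ map f (𝓝 z) :=
  (((hf.analyticAt (hU.mem_nhds hz)).hasStrictDerivAt).map_nhds_eq
    (Pool.TU.X5.deriv_ne_zero_of_injOn hU hf hi hz)).ge

theorem inv_cont {f : ℂ → ℂ} {U : Set ℂ} (hU : IsOpen U)
    (hf : DifferentiableOn ℂ f U) (hi : InjOn f U) {z : ℂ} (hz : z ∈ U) :
    Tendsto (Function.invFunOn f U) (𝓝 (f z)) (𝓝 z) := by
  refine (Filter.Tendsto.mono_left ?_ (inv_open hU hf hi hz))
  rw [Filter.tendsto_map'_iff]
  have h : (Function.invFunOn f U ∘ f) =ᶠ[𝓝 z] id := by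
    filter_upwards [hU.mem_nhds hz] with w hw
    exact hi.leftInvOn_invFunOn hw
  exact (tendsto_congr' h).mpr tendsto_id

theorem inv_deriv {f : ℂ → ℂ} {U : Set ℂ} (hU : IsOpen U)
    (hf : DifferentiableOn ℂ f U) (hi : InjOn f U) {z : ℂ} (hz : z ∈ U) :
    HasDerivAt (Function.invFunOn f U) (deriv f z)⁻¹ (f z) := by
  have hl : Function.invFunOn f U (f z) = z := hi.leftInvOn_invFunOn hz
  have h1 : ContinuousAt (Function.invFunOn f U) (f z) := by
    have := inv_cont hU hf hi hz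
    unfold ContinuousAt
    rwa [hl]
  refine HasDerivAt.of_local_left_inverse (f := f) h1 ?_
    (Pool.TU.X5.deriv_ne_zero_of_injOn hU hf hi hz) ?_
  · rw [hl]
    exact (hf.differentiableAt (hU.mem_nhds hz)).hasDerivAt
  · filter_upwards [inv_open hU hf hi hz (image_mem_map (hU.mem_nhds hz))] with w hw
    exact Function.invFunOn_eq hw

theorem exists_bdry (z : ℂ) (hz : ‖z‖ < 1) : ∃ w : ℂ, ‖w‖ = 1 ∧ ‖w - z‖ = 1 - ‖z‖ := by
  by_cases h : z = 0
  · exact ⟨1, by simp, by simp [h]⟩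
  · have hz0 : 0 < ‖z‖ := norm_pos_iff.2 h
    refine ⟨(‖z‖ : ℂ)⁻¹ * z, ?_, ?_⟩
    · rw [norm_mul, norm_inv, Complex.norm_real, norm_norm]
      field_simp
    · have h1 : (‖z‖ : ℂ)⁻¹ * z - z = (((‖z‖)⁻¹ - 1 : ℝ) : ℂ) * z := by
        push_cast
        ring
      have h2 : 1 ≤ ‖z‖⁻¹ := (one_le_inv₀ hz0).2 hz.le
      rw [h1, norm_mul, Complex.norm_real, Real.norm_eq_abs, abs_of_nonneg (by linarith)]
      field_simp

theorem hInv : StInv := by
  intro Φ z hΦ hz hsub
  obtain ⟨hd, hi⟩ := hΦ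
  have hz1 : ‖z‖ < 1 := by simpa using hz
  have hD0 : deriv Φ z ≠ 0 := Pool.TU.X5.deriv_ne_zero_of_injOn isOpen_ball hd hi hz
  have hin : ∀ x ∈ ball (0 : ℂ) 1, Φ z + 19 * x ∈ Φ '' ball 0 1 := by
    intro x hx
    apply hsub
    have hx1 : ‖x‖ < 1 := by simpa using hx
    rw [mem_ball, dist_eq_norm, add_sub_cancel_left, norm_mul]
    have : ‖(19 : ℂ)‖ = 19 := by norm_num
    rw [this]
    linarith
  have hψd : ∀ y ∈ Φ '' ball 0 1, HasDerivAt (Function.invFunOn Φ (ball 0 1))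
      (deriv Φ (Function.invFunOn Φ (ball 0 1) y))⁻¹ y := by
    rintro y ⟨x, hx, rfl⟩
    have hl : Function.invFunOn Φ (ball 0 1) (Φ x) = x := hi.leftInvOn_invFunOn hx
    rw [hl]
    exact inv_deriv isOpen_ball hd hi hx
  have hGd : ∀ x ∈ ball (0 : ℂ) 1, HasDerivAt
      (fun x => deriv Φ z / 19 * (Function.invFunOn Φ (ball 0 1) (Φ z + 19 * x) - z))
      (deriv Φ z / 19 * ((deriv Φ (Function.invFunOn Φ (ball 0 1) (Φ z + 19 * x)))⁻¹ * 19)) x := by
    intro x hx
    have h1 : HasDerivAt (fun x : ℂ => Φ z + 19 * x) 19 x := by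
      simpa using ((hasDerivAt_id x).const_mul (19 : ℂ)).const_add (Φ z)
    exact ((HasDerivAt.comp x (hψd _ (hin x hx)) h1).sub_const z).const_mul _
  have h0m : (0 : ℂ) ∈ ball (0 : ℂ) 1 := mem_ball_self one_pos
  have hlz : Function.invFunOn Φ (ball 0 1) (Φ z) = z := hi.leftInvOn_invFunOn hz
  obtain ⟨w, hw1, hw2⟩ := exists_bdry z hz1
  have hc0 : deriv Φ z / 19 ≠ 0 := div_ne_zero hD0 (by norm_num)
  have hK := Pool.Agent.Helper46.Rel.koebe_of Pool.Agent.Helper60.Rel.bieb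
    (φ := fun x => deriv Φ z / 19 * (Function.invFunOn Φ (ball 0 1) (Φ z + 19 * x) - z))
    (fun x hx => (hGd x hx).differentiableAt.differentiableWithinAt)
    (by
      intro a ha b hb hab
      have h1 := mul_left_cancel₀ hc0 hab
      have h2 := sub_left_injective h1
      have h3 : Φ z + 19 * a = Φ z + 19 * b := by
        rw [← Function.invFunOn_eq (hin a ha), ← Function.invFunOn_eq (hin b hb)]
        exact congrArg Φ h2
      have h4 := add_left_cancel h3
      exact mul_left_cancel₀ (by norm_num) h4)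
    (by simp [hlz])
    (by
      rw [(hGd 0 h0m).deriv, mul_zero, add_zero, hlz]
      field_simp)
    (w := deriv Φ z / 19 * (w - z))
    (by
      rintro ⟨x, hx, hxe⟩
      have h1 := mul_left_cancel₀ hc0 hxe
      have h2 := sub_left_injective h1
      have h3 := Function.invFunOn_mem (hin x hx)
      rw [h2, mem_ball, dist_zero_right, hw1] at h3
      exact lt_irrefl _ h3)
  rw [norm_mul, norm_div, hw2] at hK
  have h19 : ‖(19 : ℂ)‖ = 19 := by norm_num
  rw [h19] at hK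
  have h5 : ‖deriv Φ z‖ / 19 * (1 - ‖z‖) = ‖deriv Φ z‖ * (1 - ‖z‖) / 19 := by ring
  rw [h5] at hK
  linarith

end Pool.Agent.Helper9.LT
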